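import Pool.Agent.Helper15.LP.Defs

set_option autoImplicit false

open Finset
open scoped Classical
open Pool.Agent.Helper15.LR

namespace Pool.Agent.Helper15.LP

theorem lp_SPLIT (hA : Avoid_stmt) (hH : Hoeffding_stmt) : Split_stmt := by
  intro ι _ m L0 L s hm hL0 hs hL hlt
  let S : Finset ℕ := univ.biUnion L
  have hSe : ∀ e, L e ⊆ S := fun e c hc => mem_biUnion.2 ⟨e, mem_univ _, hc⟩
  let w : {c // c ∈ S} → Fin m → ℝ := fun _ _ => 1 / m
  have hmpos : (0 : ℝ) < m := by exact_mod_cast hm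
  have hw0 : ∀ i k, 0 ≤ w i k := fun i k => by
    show (0 : ℝ) ≤ 1 / m
    positivity
  have hw1 : ∀ i, ∑ k, w i k = 1 := fun i => by
    show ∑ _k : Fin m, (1 : ℝ) / m = 1
    rw [sum_const, card_univ, Fintype.card_fin, nsmul_eq_mul, mul_one_div, div_self hmpos.ne']
  let T : ι → Finset {c // c ∈ S} := fun e => univ.filter (fun c => c.1 ∈ L e)
  have hTcard : ∀ e, (T e).card = L0 := by
    intro e
    rw [← hL e]
    refine card_bij (fun c _ => c.1) (fun c hc => (mem_filter.1 hc).2)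
      (fun a _ b _ h => Subtype.ext h) (fun c hc => ⟨⟨c, hSe e hc⟩, ?_, rfl⟩)
    exact mem_filter.2 ⟨mem_univ _, hc⟩
  let cc : Fin m → {c // c ∈ S} → Fin m → ℝ := fun i _ k => (if k = i then 1 else 0) - 1 / m
  let E : ι × Fin m → Set ({c // c ∈ S} → Fin m) := fun p =>
    {x | s < |∑ c ∈ T p.1, cc p.2 c (x c)|}
  have hm1 : (1 : ℝ) ≤ m := by exact_mod_cast hm
  have hinv : (1 : ℝ) / m ≤ 1 := by
    rw [div_le_one hmpos]
    exact hm1
  have hinv0 : (0 : ℝ) ≤ 1 / m := by positivity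
  have hPP : ∀ p, PP w (E p) ≤ 2 * Real.exp (-(s ^ 2 / (2 * L0))) := by
    intro p
    have h1 : PP w (E p) ≤ PP w {x | s ≤ |∑ c ∈ T p.1, cc p.2 c (x c)|} := by
      unfold PP
      refine sum_le_sum fun x _ => ?_
      by_cases hx : x ∈ E p
      · have hx' : x ∈ {x : {c // c ∈ S} → Fin m | s ≤ |∑ c ∈ T p.1, cc p.2 c (x c)|} :=
          le_of_lt (show s < |∑ c ∈ T p.1, cc p.2 c (x c)| from hx)
        rw [if_pos hx, if_pos hx']
      · rw [if_neg hx]
        split_ifs
        · exact prod_nonneg fun i _ => hw0 i (x i)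
        · exact le_rfl
    have h2 := hH {c // c ∈ S} (Fin m) w (T p.1) (cc p.2) 1 s hw0 hw1 one_pos hs
      (fun c k => by
        show |(if k = p.2 then (1 : ℝ) else 0) - 1 / m| ≤ 1
        split_ifs
        · rw [abs_le]; constructor <;> linarith
        · rw [abs_le]; constructor <;> linarith)
      (fun c => by
        show ∑ k : Fin m, (1 : ℝ) / m * ((if k = p.2 then 1 else 0) - 1 / m) = 0
        rw [← mul_sum, sum_sub_distrib, sum_ite_eq', if_pos (mem_univ _), sum_const, card_univ,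
          Fintype.card_fin, nsmul_eq_mul, mul_one_div, div_self hmpos.ne', sub_self, mul_zero])
    refine h1.trans (h2.trans (le_of_eq ?_))
    rw [hTcard]
    congr 2
    rw [one_pow, mul_one, neg_div]
  have hsum : ∑ p, PP w (E p) < 1 := by
    refine lt_of_le_of_lt (sum_le_sum fun p _ => hPP p) ?_
    rw [sum_const, card_univ, Fintype.card_prod, Fintype.card_fin, nsmul_eq_mul]
    push_cast
    exact hlt
  obtain ⟨x, hx, _⟩ := hA {c // c ∈ S} (Fin m) (ι × Fin m) w E hw0 hw1 hsum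
  refine ⟨fun c => if h : c ∈ S then x ⟨c, h⟩ else ⟨0, hm⟩, fun e i => ?_⟩
  have h1 : ¬ (s < |∑ c ∈ T e, cc i c (x c)|) := hx (e, i)
  have h2 : ∑ c ∈ T e, cc i c (x c) =
      (((L e).filter (fun c => (if h : c ∈ S then x ⟨c, h⟩ else ⟨0, hm⟩) = i)).card : ℝ)
        - L0 / m := by
    show ∑ c ∈ T e, ((if x c = i then (1 : ℝ) else 0) - 1 / m) = _
    rw [sum_sub_distrib, sum_const, hTcard, nsmul_eq_mul, mul_one_div, ← sum_filter, sum_const,
      nsmul_eq_mul, mul_one]
    congr 2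
    refine card_bij (fun c _ => c.1) ?_ (fun a _ b _ h => Subtype.ext h) ?_
    · intro c hc
      rw [mem_filter] at hc ⊢
      refine ⟨(mem_filter.1 hc.1).2, ?_⟩
      rw [dif_pos c.2]
      exact hc.2
    · intro c hc
      rw [mem_filter] at hc
      have hcS := hSe e hc.1
      refine ⟨⟨c, hcS⟩, ?_, rfl⟩
      rw [mem_filter]
      refine ⟨mem_filter.2 ⟨mem_univ _, hc.1⟩, ?_⟩
      have := hc.2
      rw [dif_pos hcS] at this
      exact this
  rw [h2] at h1
  exact not_lt.1 h1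

end Pool.Agent.Helper15.LP
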